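import Pool.Agent.Helper13.TC.Cov
import Pool.Agent.Helper62.EC.Chart

/-!
# Special classes and Artin–Schreier covers
-/

set_option autoImplicit false

open CategoryTheory AlgebraicGeometry Polynomial

universe u v

namespace Pool.Agent.Helper13.TC

open Pool.Agent.Y138.UC

/-- For a closed immersion `i` which is also an open immersion, the restriction along `i` of the
push-forward of a class `z` along `i` is `z`. -/
def ClopenRes {k : Type u} [Field k] {F : Type v} [Field F] (T : CycleTheory.{u, v} k F) : Prop :=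
  ∀ (Z X : Sch k) (i : Z ⟶ X) (hc : IsCl i) (ho : IsOp i) (n : ℤ) (z : (T.H 0).M Z n),
    (T.H 0).res i ho n ((T.H 0).push i hc n z) = z

section general

variable {k : Type u} [Field k] {F : Type v} [Field F] {T : CycleTheory.{u, v} k F}

/-- From a scheme to an open and closed subscheme. -/
theorem clopen_of (hT : T.IsValid) (hcl : ClopenRes T) {Z X : Sch k} (i : Z ⟶ X) (hc : IsCl i)
    (ho : IsOp i) {n : ℤ} (h : T.Algebraic X n) : T.Algebraic Z n := by
  intro x hx
  obtain ⟨ξ, hξ⟩ := h ((hT.push i hc n).2 x hx)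
  refine ⟨T.C.res i ho n ξ, ?_⟩
  rw [(hT.res i ho n).1, hξ, hcl]

/-- Disjoint unions. -/
theorem clopen_union (hT : T.IsValid) (hcl : ClopenRes T) {Z W X : Sch k} (i : Z ⟶ X) (j : W ⟶ X)
    (hX : IsVariety X) (h1 : IsComplement i j) (h2 : IsComplement j i) {n : ℤ}
    (hZ : T.Algebraic Z n) (hW : T.Algebraic W n) : T.Algebraic X n := by
  intro x hx
  obtain ⟨ξ, hξ⟩ := hZ ((hT.res i h2.2.1 n).2 x hx)
  obtain ⟨η, hη⟩ := hW ((hT.res j h1.2.1 n).2 x hx)
  -- restrictions of push-forwards
  have e1 : (T.H 0).res j h1.2.1 n ((T.H 0).push i h1.1 n (T.cl Z n ξ)) = 0 :=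
    ((hT.homology.exact hX h1 0 n).1 _).2 ⟨_, rfl⟩
  have e2 : (T.H 0).res i h2.2.1 n ((T.H 0).push j h2.1 n (T.cl W n η)) = 0 :=
    ((hT.homology.exact hX h2 0 n).1 _).2 ⟨_, rfl⟩
  have e3 := hcl Z X i h1.1 h2.2.1 n (T.cl Z n ξ)
  have e4 := hcl W X j h2.1 h1.2.1 n (T.cl W n η)
  set y := x - (T.H 0).push i h1.1 n (T.cl Z n ξ) - (T.H 0).push j h2.1 n (T.cl W n η) with hy
  have e5 : (T.H 0).res j h1.2.1 n y = 0 := by
    rw [hy, map_sub, map_sub, e1, e4, hη, sub_zero, sub_self]
  have e6 : (T.H 0).res i h2.2.1 n y = 0 := by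
    rw [hy, map_sub, map_sub, e2, e3, hξ, sub_self, sub_zero]
  obtain ⟨z, hz⟩ := ((hT.homology.exact hX h1 0 n).1 _).1 e5
  have e7 : y = 0 := by
    rw [← hz, hcl Z X i h1.1 h2.2.1 n z] at e6
    rw [← hz, e6, map_zero]
  refine ⟨T.C.push i h1.1 n ξ + T.C.push j h2.1 n η, ?_⟩
  rw [map_add, (hT.push i h1.1 n).1, (hT.push j h2.1 n).1]
  rw [hy, sub_sub, sub_eq_zero] at e7
  exact e7.symm

/-- From a scheme to a closed subscheme whose complement has no homology. -/
theorem closed_of (hT : T.IsValid) {Z X U : Sch k} {i : Z ⟶ X} {j : U ⟶ X} (hX : IsVariety X)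
    (h : IsComplement i j) {n : ℤ} (h1 : Subsingleton ((T.H (0 + 1)).M U n))
    (hC : Subsingleton (T.C.M U n)) (hA : T.Algebraic X n) : T.Algebraic Z n := by
  have hinj : Function.Injective ((T.H 0).push i h.1 n) := by
    obtain ⟨_, δ, _, h3⟩ := hT.homology.exact hX h 0 n
    rw [injective_iff_map_eq_zero]
    intro x hx
    obtain ⟨y, rfl⟩ := (h3 x).1 hx
    rw [Subsingleton.elim y 0, map_zero]
  intro x hx
  obtain ⟨ξ, hξ⟩ := hA ((hT.push i h.1 n).2 x hx)
  obtain ⟨ζ, rfl⟩ := ((hT.chow.exact hX h n).1 ξ).1 (Subsingleton.elim _ _)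
  rw [(hT.push i h.1 n).1] at hξ
  exact ⟨ζ, hinj hξ⟩

/-- The converse. -/
theorem of_closed (hT : T.IsValid) (hw : T.IsWeighted) {Z X U : Sch k} {i : Z ⟶ X} {j : U ⟶ X}
    (hX : IsVariety X) (h : IsComplement i j) {n : ℤ} (h1 : Subsingleton ((T.H (0 + 1)).M U n))
    (h0 : Subsingleton ((T.H 0).M U n)) (hA : T.Algebraic Z n) : T.Algebraic X n := by
  have hinj : Function.Injective ((T.H 0).push i h.1 n) := by
    obtain ⟨_, δ, _, h3⟩ := hT.homology.exact hX h 0 n
    rw [injective_iff_map_eq_zero]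
    intro x hx
    obtain ⟨y, rfl⟩ := (h3 x).1 hx
    rw [Subsingleton.elim y 0, map_zero]
  intro x hx
  obtain ⟨z, rfl⟩ := ((hT.homology.exact hX h 0 n).1 x).1 (Subsingleton.elim _ _)
  obtain ⟨ζ, rfl⟩ := hA (hw.push i h.1 hX n hinj z hx)
  exact ⟨T.C.push i h.1 n ζ, (hT.push i h.1 n).1 ζ⟩

/-- The homology of isomorphic schemes. -/
theorem sub_iso (hT : T.IsValid) {X Y : Over (Spec (CommRingCat.of k))} (e : X ≅ Y) (hY : IsVariety Y) {m n : ℤ}
    (h : Subsingleton ((T.H m).M Y n)) : Subsingleton ((T.H m).M X n) := by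
  have hiso : IsIso e.hom.left := inferInstanceAs (IsIso ((Over.forget _).mapIso e).hom)
  have h1 := (hT.homology.pull (isAffineBundle_of_isIso e.hom.left) hY m n).2.subsingleton
  rw [Nat.cast_zero, add_zero] at h1
  exact h1

/-- The cycles of isomorphic schemes. -/
theorem sub_iso_chow (hT : T.IsValid) {X Y : Over (Spec (CommRingCat.of k))} (e : X ≅ Y) (hY : IsVariety Y) {n : ℤ}
    (h : Subsingleton (T.C.M Y n)) : Subsingleton (T.C.M X n) := by
  have hiso : IsIso e.hom.left := inferInstanceAs (IsIso ((Over.forget _).mapIso e).hom)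
  have h1 := (hT.chow.pull (isAffineBundle_of_isIso e.hom.left) hY n).subsingleton
  rw [Nat.cast_zero, add_zero] at h1
  exact h1

end general

section zero

variable {k : Type} [Field k] {F : Type v} [Field F] {T : CycleTheory.{0, v} k F}

/-- the line over an affine scheme -/
noncomputable def lineEquiv (k : Type) [Field k] (A : Type) [CommRing A] [Algebra k A] :
    MvPolynomial (Fin 1) A ≃ₐ[k] A[X] :=
  (MvPolynomial.uniqueAlgEquiv A (Fin 1)).restrictScalars k

/-- Descent from the line. -/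
theorem algebraic_of_line (hT : T.IsValid) (A : Type) [CommRing A] [Algebra k A]
    [Algebra.FiniteType k A] {n : ℤ} (h : T.Algebraic (aff k A[X]) (n + 1)) :
    T.Algebraic (aff k A) n := by
  refine hT.algebraic_of_bundle (triv A 1) (isAffineBundle_triv (k := k) A 1) (isVariety_aff A) ?_
  rw [Nat.cast_one]
  exact alg_iso hT (lineEquiv k A).symm h

/-- The line, for weighted theories. -/
theorem algebraic_line (hT : T.IsValid) (hw : T.IsWeighted) (A : Type) [CommRing A] [Algebra k A]
    [Algebra.FiniteType k A] {n : ℤ} (h : T.Algebraic (aff k A) n) :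
    T.Algebraic (aff k A[X]) (n + 1) := by
  refine alg_iso hT (lineEquiv k A) ?_
  have hb := isAffineBundle_triv (k := k) A 1
  have vA : IsVariety (aff k A) := isVariety_aff A
  have h1 : T.Algebraic (aff k (MvPolynomial (Fin 1) A)) (n + (1 : ℕ)) := by
    intro x hx
    obtain ⟨w, rfl⟩ := (hT.homology.pull hb vA 0 n).2 x
    obtain ⟨η, rfl⟩ := h (hw.pull _ _ hb vA _ _ hx)
    exact ⟨T.C.pull _ 1 hb n η, (hT.pull _ 1 hb n).1 η⟩
  rw [Nat.cast_one] at h1
  exact h1

/-- the two factors of a product -/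
theorem compl_prod (A B : Type) [CommRing A] [CommRing B] [Algebra k A] [Algebra k B] :
    IsComplement (k := k) (Pool.Agent.Y116.UV.affMap (AlgHom.snd k A B) : aff k B ⟶ aff k (A × B))
      (Pool.Agent.Y116.UV.affMap (AlgHom.fst k A B) : aff k A ⟶ aff k (A × B)) := by
  have h := Pool.Agent.Helper62.EC.triple_prod (R := k) (A := A) (B := B)
  exact ⟨h.closed, h.opened, h.compl⟩

theorem compl_prod' (A B : Type) [CommRing A] [CommRing B] [Algebra k A] [Algebra k B] :
    IsComplement (k := k) (Pool.Agent.Y116.UV.affMap (AlgHom.fst k A B) : aff k A ⟶ aff k (A × B))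
      (Pool.Agent.Y116.UV.affMap (AlgHom.snd k A B) : aff k B ⟶ aff k (A × B)) := by
  refine ⟨Pool.Agent.Y116.UV.closed_affMap _ Prod.fst_surjective, ?_, ?_⟩
  · let := (RingHom.snd A B).toAlgebra
    exact IsOpenImmersion.of_isLocalization (R := A × B) (S := B) (0, 1)
  · have h := (compl_prod (k := k) A B).2.2
    rw [h, compl_compl]

lemma ft_of_equiv {A B : Type} [CommRing A] [CommRing B] [Algebra k A] [Algebra k B]
    [h : Algebra.FiniteType k A] (e : A ≃ₐ[k] B) : Algebra.FiniteType k B :=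
  Algebra.FiniteType.equiv h e

/-- several copies -/
theorem spl_iff (hT : T.IsValid) (hcl : ClopenRes T) (G : Type) [CommRing G] [Algebra k G]
    [Algebra.FiniteType k G] (s : Finset k) (hs : s.Nonempty) {n : ℤ} :
    T.Algebraic (aff k (Pool.Agent.Helper62.EC.Spl G s)) n ↔ T.Algebraic (aff k G) n := by
  classical
  have hft : ∀ s : Finset k, Algebra.FiniteType k (Pool.Agent.Helper62.EC.Spl G s) :=
    fun s => Pool.Agent.Helper62.EC.ft_spl s
  constructor
  · intro h
    obtain ⟨a, ha⟩ := hs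
    have h1 : s = insert a (s.erase a) := (Finset.insert_erase ha).symm
    rw [h1] at h
    obtain ⟨e⟩ := Pool.Agent.Helper62.EC.spl_insert G (s.erase a) a (Finset.notMem_erase a s)
    have f1 := hft (s.erase a)
    have f2 := hft (insert a (s.erase a))
    have f3 : Algebra.FiniteType k (G × Pool.Agent.Helper62.EC.Spl G (s.erase a)) :=
      ft_of_equiv e
    have h2 := alg_iso hT e h
    exact clopen_of hT hcl _ (compl_prod' (k := k) G (Pool.Agent.Helper62.EC.Spl G (s.erase a))).1
      (compl_prod (k := k) G (Pool.Agent.Helper62.EC.Spl G (s.erase a))).2.1 h2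
  · intro h
    clear hs
    induction s using Finset.induction_on with
    | empty =>
      have hsub : Subsingleton (Pool.Agent.Helper62.EC.Spl G (∅ : Finset k)) := by
        change Subsingleton (G[X] ⧸ Ideal.span {∏ a ∈ (∅ : Finset k), (X - C (algebraMap k G a))})
        rw [Finset.prod_empty, Ideal.span_singleton_one]
        exact Ideal.Quotient.subsingleton_iff.mpr rfl
      have hemp : IsEmpty (aff k (Pool.Agent.Helper62.EC.Spl G (∅ : Finset k))).left := by
        change IsEmpty (PrimeSpectrum _)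
        exact PrimeSpectrum.isEmpty_iff_subsingleton.2 hsub
      exact algebraic_empty hT _ _
    | insert a s ha ih =>
      obtain ⟨e⟩ := Pool.Agent.Helper62.EC.spl_insert G s a ha
      have f1 := hft s
      have f2 := hft (insert a s)
      have f3 : Algebra.FiniteType k (G × Pool.Agent.Helper62.EC.Spl G s) := ft_of_equiv e
      refine alg_iso hT e.symm ?_
      exact clopen_union hT hcl _ _ (isVariety_aff _) (compl_prod (k := k) G _)
        (compl_prod' (k := k) G _) ih h

section main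

open Pool.Agent.Helper62.EC

variable (p : ℕ) [Fact p.Prime] [CharP k p] {D : Type} [CommRing D] [Algebra k D]
  [Algebra.FiniteType k D] (f : D)

/-- the chart and its closed complement -/
theorem exists_compl : ∃ (i : aff k (Spl (Gf f) (unts k p)) ⟶ aff k (AS p (yf f)))
    (j : aff k D[X] ⟶ aff k (AS p (yf f))), IsComplement i j := by
  have hp : 2 ≤ p := (Fact.out : p.Prime).two_le
  have ht := triple_two (R := k) (φ := (chart p f hp).restrictScalars k) (s₁ := s₁ p f)
    (s₂ := s₂ p f) (chart_unit p f hp) (loc₁ p f hp) (loc₂ p f hp)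
    (Ideal.Quotient.mkₐ k (Ideal.span {s₁ p f, s₂ p f})) (Ideal.Quotient.mkₐ_surjective _ _)
    (Ideal.Quotient.mkₐ_ker k _)
  have hpoly : (X ^ (p - 1) - 1 : (Gf f)[X]) =
      ∏ a ∈ unts k p, (X - C (algebraMap k (Gf f) a)) := by
    have h1 := congrArg (Polynomial.map (algebraMap k (Gf f))) (prod_unts k p)
    rw [Polynomial.map_sub, Polynomial.map_pow, Polynomial.map_one, map_X,
      Polynomial.map_prod] at h1
    rw [h1]
    refine Finset.prod_congr rfl fun a _ => ?_
    rw [Polynomial.map_sub, map_X, map_C]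
  obtain ⟨e⟩ := adjoin_congr (k := k) hpoly
  let e1 : (AS p (yf f) ⧸ Ideal.span {s₁ p f, s₂ p f}) ≃ₐ[k] Spl (Gf f) (unts k p) :=
    ((cloE p f hp).restrictScalars k).trans e
  let i0 : aff k (AS p (yf f) ⧸ Ideal.span {s₁ p f, s₂ p f}) ⟶ aff k (AS p (yf f)) :=
    Pool.Agent.Y116.UV.affMap (Ideal.Quotient.mkₐ k (Ideal.span {s₁ p f, s₂ p f}))
  let j0 : aff k D[X] ⟶ aff k (AS p (yf f)) :=
    Pool.Agent.Y116.UV.affMap ((chart p f hp).restrictScalars k)
  have hiso : IsIso (affIso e1).inv.left := iso_left (affIso e1).symm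
  have hi0 : IsClosedImmersion i0.left := ht.closed
  refine ⟨(affIso e1).inv ≫ i0, j0, ?_, ht.opened, ?_⟩
  · change IsClosedImmersion ((affIso e1).inv.left ≫ i0.left)
    infer_instance
  · have h2 : Set.range ((affIso e1).inv ≫ i0).left = Set.range i0.left := by
      ext x
      constructor
      · rintro ⟨y, rfl⟩
        exact ⟨(affIso e1).inv.left y, rfl⟩
      · rintro ⟨y, rfl⟩
        obtain ⟨z, rfl⟩ := (affIso e1).inv.left.surjective y
        exact ⟨z, rfl⟩
    rw [h2]
    exact ht.compl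

/-- From the Artin–Schreier cover `t ^ p - t = y f` to `f = 0`. -/
theorem zero_of_as (hT : T.IsValid) (hcl : ClopenRes T) {n : ℤ}
    (h1 : Subsingleton ((T.H (0 + 1)).M (aff k D[X]) (n + 1)))
    (hC : Subsingleton (T.C.M (aff k D[X]) (n + 1)))
    (h : T.Algebraic (aff k (AS p (yf f))) (n + 1)) :
    T.Algebraic (aff k (D ⧸ Ideal.span {f})) n := by
  obtain ⟨i, j, hc⟩ := exists_compl (k := k) p f
  have h2 := closed_of hT (isVariety_aff _) hc h1 hC h
  exact algebraic_of_line hT _ ((spl_iff hT hcl (Gf f) _ (unts_nonempty k p)).1 h2)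

/-- From `f = 0` to the Artin–Schreier cover `t ^ p - t = y f`. -/
theorem as_of_zero (hT : T.IsValid) (hw : T.IsWeighted) (hcl : ClopenRes T) {n : ℤ}
    (h1 : Subsingleton ((T.H (0 + 1)).M (aff k D[X]) (n + 1)))
    (h0 : Subsingleton ((T.H 0).M (aff k D[X]) (n + 1)))
    (h : T.Algebraic (aff k (D ⧸ Ideal.span {f})) n) :
    T.Algebraic (aff k (AS p (yf f))) (n + 1) := by
  obtain ⟨i, j, hc⟩ := exists_compl (k := k) p f
  refine of_closed hT hw (isVariety_aff _) hc h1 h0 ?_
  exact (spl_iff hT hcl (Gf f) _ (unts_nonempty k p)).2 (algebraic_line hT hw _ h)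

end main

section space

/-- the line over the affine space -/
theorem exists_space (k : Type) [Field k] (σ : Type) [Fintype σ] :
    Nonempty (aff k (MvPolynomial σ k)[X] ≅ aff k (MvPolynomial (Fin (Fintype.card σ + 1)) k)) := by
  let e1 : MvPolynomial σ k ≃ₐ[k] MvPolynomial (Fin (Fintype.card σ)) k :=
    MvPolynomial.renameEquiv k (Fintype.equivFin σ)
  exact ⟨affIso ((Polynomial.mapAlgEquiv e1).trans
    (MvPolynomial.finSuccEquiv k (Fintype.card σ)).symm)⟩

variable {σ : Type} [Fintype σ]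

theorem space_vanish (hT : T.IsValid) (m n : ℤ) (h : m + 2 * (n - (Fintype.card σ + 1)) ≠ 0) :
    Subsingleton ((T.H m).M (aff k (MvPolynomial σ k)[X]) n) := by
  obtain ⟨e⟩ := exists_space k σ
  exact sub_iso hT e (isVariety_aff _) (hT.affine_space (Fintype.card σ + 1) m n (by
    push_cast; exact h))

theorem space_vanish_chow (hT : T.IsValid) (n : ℤ) (h : n ≠ Fintype.card σ + 1) :
    Subsingleton (T.C.M (aff k (MvPolynomial σ k)[X]) n) := by
  obtain ⟨e⟩ := exists_space k σ
  exact sub_iso_chow hT e (isVariety_aff _) (hT.affine_space_chow (Fintype.card σ + 1) n (by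
    push_cast; exact h))

variable (p : ℕ) [Fact p.Prime] [CharP k p] (f : MvPolynomial σ k)

theorem zero_of_as' (hT : T.IsValid) (hcl : ClopenRes T) {n : ℤ} (hn : n ≠ Fintype.card σ)
    (h : T.Algebraic (aff k (Pool.Agent.Helper62.EC.AS p (Pool.Agent.Helper62.EC.yf f))) (n + 1)) :
    T.Algebraic (aff k (MvPolynomial σ k ⧸ Ideal.span {f})) n :=
  zero_of_as p f hT hcl (space_vanish hT _ _ (by omega)) (space_vanish_chow hT _ (by omega)) h

theorem as_of_zero' (hT : T.IsValid) (hw : T.IsWeighted) (hcl : ClopenRes T) {n : ℤ}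
    (hn : n ≠ Fintype.card σ)
    (h : T.Algebraic (aff k (MvPolynomial σ k ⧸ Ideal.span {f})) n) :
    T.Algebraic (aff k (Pool.Agent.Helper62.EC.AS p (Pool.Agent.Helper62.EC.yf f))) (n + 1) :=
  as_of_zero p f hT hw hcl (space_vanish hT _ _ (by omega)) (space_vanish hT _ _ (by omega)) h

end space

end zero

end Pool.Agent.Helper13.TC
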