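import Pool.Agent.Helper13.TC.Ind
import Pool.Agent.Helper62.EC.Torus

/-!
# Special classes and finite étale covers of affine spaces
-/

set_option autoImplicit false

open CategoryTheory AlgebraicGeometry Polynomial

universe u v

namespace Pool.Agent.Helper13.TC

open Pool.Agent.Y138.UC

section torus

variable {k : Type u} [Field k] {F : Type v} [Field F] {T : CycleTheory.{u, v} k F}

/-- the coordinate ring of the product with the torus -/
abbrev Gm (A : Type u) [CommRing A] : Type u := Localization.Away (MvPolynomial.X 0 : MvPolynomial (Fin 1) A)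

variable (A : Type u) [CommRing A] [Algebra k A]

theorem gm_alg : (algebraMap (MvPolynomial (Fin 1) A) (Gm A)).comp
    (algebraMap k (MvPolynomial (Fin 1) A)) = algebraMap k (Gm A) := by
  refine RingHom.ext fun x => ?_
  exact (IsScalarTower.algebraMap_apply k (MvPolynomial (Fin 1) A) (Gm A) x).symm

/-- the section at `1` -/
noncomputable def sec1 : Gm A →+* A :=
  IsLocalization.Away.lift (MvPolynomial.X 0 : MvPolynomial (Fin 1) A)
    (g := MvPolynomial.eval (fun _ : Fin 1 => (1 : A)))
    (by rw [MvPolynomial.eval_X]; exact isUnit_one)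

theorem sec1_comp : (sec1 A).comp (algebraMap (MvPolynomial (Fin 1) A) (Gm A)) =
    MvPolynomial.eval (fun _ : Fin 1 => (1 : A)) :=
  IsLocalization.Away.lift_comp _ _

theorem sec1_alg : (sec1 A).comp (algebraMap k (Gm A)) = algebraMap k A := by
  rw [← gm_alg, ← RingHom.comp_assoc, sec1_comp, eval_alg]

/-- the inclusion of the torus in the line -/
noncomputable def gmι : aff k (Gm A) ⟶ aff k (MvPolynomial (Fin 1) A) :=
  affMap (algebraMap (MvPolynomial (Fin 1) A) (Gm A)) (gm_alg A)

theorem gm_section : (affMap (sec1 A) (sec1_alg A) : aff k A ⟶ aff k (Gm A)) ≫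
    gmι A ≫ triv A 1 = 𝟙 (aff k A) := by
  refine affMap_section _ _ _ _ _ _ ?_
  rw [← RingHom.comp_assoc, sec1_comp]
  exact RingHom.ext fun x => MvPolynomial.eval_C _

theorem gm_open : IsOpenImmersion (gmι (k := k) A).left := by
  change IsOpenImmersion (Spec.map (CommRingCat.ofHom (algebraMap (MvPolynomial (Fin 1) A) (Gm A))))
  infer_instance

/-- Descent from the product with the torus. -/
theorem algebraic_of_gm (hT : T.IsValid) [Algebra.FiniteType k A] {a : ℤ}
    (h : T.Algebraic (aff k (Gm A)) (a + 1)) : T.Algebraic (aff k A) a := by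
  have vA : IsVariety (aff k A) := isVariety_aff A
  have vE : IsVariety (aff k (MvPolynomial (Fin 1) A)) := isVariety_aff _
  have hb := isAffineBundle_triv (k := k) A 1
  intro x hx
  have h1 := (hT.res (gmι A) (gm_open A) _).2 _ ((hT.pull (triv A 1) 1 hb a).2 x hx)
  have h2 : T.Algebraic (aff k (Gm A)) (a + (1 : ℕ)) := by
    rw [Nat.cast_one]; exact h
  obtain ⟨ξ, hξ⟩ := h2 h1
  -- the closed complement
  have hc : IsComplement (zeroSec (k := k) A 0) (gmι A) := by
    refine isComplement_aff _ _ _ _ ?_ (MvPolynomial.X 0) (ker_eval_zero _) (gm_open (k := k) A) ?_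
    · intro x
      exact ⟨MvPolynomial.C x, MvPolynomial.eval_C _⟩
    · exact PrimeSpectrum.localization_away_comap_range (Gm A)
        (MvPolynomial.X 0 : MvPolynomial (Fin 1) A)
  obtain ⟨η, rfl⟩ := (hT.chow.exact vE hc _).2 ξ
  obtain ⟨ζ, rfl⟩ := hT.chow.pull hb vA a η
  refine ⟨ζ, ?_⟩
  apply hT.homology.section_inj hb (gm_open A) (gm_section A) vA 0 a
  change (T.H 0).res _ _ _ ((T.H 0).pull _ _ _ _ _) = (T.H 0).res _ _ _ ((T.H 0).pull _ _ _ _ _)
  rw [← hξ, (hT.res (gmι A) (gm_open A) _).1, (hT.pull (triv A 1) 1 hb a).1]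

end torus

section covers

variable {k : Type} [Field k] {F : Type v} [Field F] {T : CycleTheory.{0, v} k F}

lemma alg_iso (hT : T.IsValid) {A B : Type} [CommRing A] [CommRing B] [Algebra k A] [Algebra k B]
    [Algebra.FiniteType k B] (e : A ≃ₐ[k] B) {a : ℤ} (h : T.Algebraic (aff k A) a) :
    T.Algebraic (aff k B) a :=
  hT.algebraic_of_iso (affIso e) (isVariety_aff B) h

lemma iso_left {X Y : Over (Spec (CommRingCat.of k))} (e : X ≅ Y) : IsIso e.hom.left :=
  inferInstanceAs (IsIso ((Over.forget _).mapIso e).hom)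

lemma ft_cov {m : ℕ} (f : (MvPolynomial (Fin m) k)[X]) : Algebra.FiniteType k (AdjoinRoot f) :=
  Algebra.FiniteType.trans (S := MvPolynomial (Fin m) k) inferInstance inferInstance

/-- Descent from the Laurent polynomials. -/
theorem algebraic_of_laurent (hT : T.IsValid) (A : Type) [CommRing A] [Algebra k A]
    [Algebra.FiniteType k A] {a : ℤ}
    (h : T.Algebraic (aff k (LaurentPolynomial A)) (a + 1)) : T.Algebraic (aff k A) a := by
  obtain ⟨e⟩ := Pool.Agent.Helper62.EC.loc_laurent (k := k) (A₁ := MvPolynomial (Fin 1) A)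
    (A₂ := A) ((MvPolynomial.uniqueAlgEquiv A (Fin 1)).restrictScalars k) (MvPolynomial.X 0) (by
      simp)
  have : Algebra.FiniteType k (Gm A) := by
    have h : Algebra.FiniteType (MvPolynomial (Fin 1) A) (Gm A) :=
      RingHom.finiteType_algebraMap.1 (RingHom.finiteType_holdsForLocalizationAway (Gm A)
        (MvPolynomial.X 0 : MvPolynomial (Fin 1) A))
    exact Algebra.FiniteType.trans (S := MvPolynomial (Fin 1) A) inferInstance h
  exact algebraic_of_gm A hT (alg_iso hT e.symm h)

/-- An integral affine variety of dimension at most `n` has a non-empty open subscheme which is a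
finite étale cover of an affine space. -/
theorem exists_cover_open [PerfectField k] (p : ℕ) [CharP k p] (hp : p ≠ 0) (n : ℕ)
    (E : Over (Spec (.of k))) [IsAffine E.left] [IsIntegral E.left] (hE : IsVariety E)
    (hn : topologicalKrullDim E.left ≤ n) :
    ∃ (r : ℕ) (f : (MvPolynomial (Fin r) k)[X]), r ≤ n ∧ f.Monic ∧
      IsCoprime f (derivative f) ∧ Irreducible f ∧
      ∃ j : aff k (AdjoinRoot f) ⟶ E, IsOpenImmersion j.left ∧
        Nonempty (aff k (AdjoinRoot f)).left := by
  obtain ⟨B, _, _, hB, ⟨e⟩⟩ := exists_aff_iso E hE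
  have hiso : IsIso e.hom.left := iso_left e
  have hne : Nonempty (aff k B).left := by
    have h0 : Nonempty E.left := inferInstance
    obtain ⟨x⟩ := h0
    exact ⟨e.inv.left x⟩
  have : IsIntegral (aff k B).left := isIntegral_of_isOpenImmersion e.hom.left
  have hdom : IsDomain B := by
    have h1 : IsIntegral (Spec (.of B)) := this
    exact (affine_isIntegral_iff (.of B)).1 h1
  have hdim : ringKrullDim B ≤ n := by
    rw [← PrimeSpectrum.topologicalKrullDim_eq_ringKrullDim]
    exact (e.hom.left.isOpenEmbedding.isInducing.topologicalKrullDim_le).trans hn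
  obtain ⟨w, hw, r, f, hr, hf, hc, hi, ⟨e2⟩⟩ := Pool.Agent.Helper62.EC.exists_cover k p hp B n hdim
  have halg : (algebraMap B (Localization.Away w)).comp (algebraMap k B) =
      algebraMap k (Localization.Away w) :=
    RingHom.ext fun x => (IsScalarTower.algebraMap_apply k B (Localization.Away w) x).symm
  let j0 : aff k (Localization.Away w) ⟶ aff k B :=
    affMap (algebraMap B (Localization.Away w)) halg
  have hj0 : IsOpenImmersion j0.left := by
    change IsOpenImmersion (Spec.map (CommRingCat.ofHom (algebraMap B (Localization.Away w))))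
    infer_instance
  refine ⟨r, f, hr, hf, hc, hi, (affIso e2).inv ≫ j0 ≫ e.hom, ?_, ?_⟩
  · have h1 : IsIso (affIso e2).inv.left := iso_left (affIso e2).symm
    change IsOpenImmersion ((affIso e2).inv.left ≫ j0.left ≫ e.hom.left)
    infer_instance
  · have hd : IsDomain (AdjoinRoot f) :=
      (Pool.Agent.Helper62.EC.prime_iff_dom hf.ne_zero).1 hi.prime
    change Nonempty (PrimeSpectrum (AdjoinRoot f))
    infer_instance

/-- Special classes of dimension `a` on all varieties of dimension at most `n`, from those on the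
finite étale covers of the affine spaces of dimension at most `n`. -/
theorem of_covers (hT : T.IsValid) (hs : T.IsStrict) [PerfectField k] (p : ℕ) [CharP k p]
    (hp : p ≠ 0) (n : ℕ) (a : ℤ)
    (h : ∀ (m : ℕ) (f : (MvPolynomial (Fin m) k)[X]), m ≤ n → f.Monic →
      IsCoprime f (derivative f) → Irreducible f → T.Algebraic (aff k (AdjoinRoot f)) a)
    (X : Over (Spec (.of k))) (hX : IsVariety X) (hn : topologicalKrullDim X.left ≤ n) :
    T.Algebraic X a := by
  refine algebraic_of_integral hT hs (n := n) (fun E hE1 hE2 hE3 hE4 => ?_) X hX hn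
  obtain ⟨r, f, hr, hf, hc, hi, j, hj, hne⟩ := exists_cover_open p hp n E hE3 hE4
  exact ⟨_, j, hj, hne, h r f hr hf hc hi⟩

/-- The dimension of an affine variety is finite. -/
theorem exists_dim (E : Over (Spec (.of k))) [IsAffine E.left] (hE : IsVariety E) :
    ∃ n : ℕ, topologicalKrullDim E.left ≤ n := by
  obtain ⟨B, _, _, hB, ⟨e⟩⟩ := exists_aff_iso E hE
  obtain ⟨N, φ, hφ⟩ := Algebra.FiniteType.iff_quotient_mvPolynomial''.1 hB
  refine ⟨N, ?_⟩
  have h1 : ringKrullDim B ≤ N := by
    refine (ringKrullDim_le_of_surjective φ.toRingHom hφ).trans ?_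
    rw [MvPolynomial.ringKrullDim_of_isNoetherianRing, ringKrullDim_eq_zero_of_field, zero_add,
      Nat.card_eq_fintype_card, Fintype.card_fin]
  have hiso : IsIso e.inv.left := iso_left e.symm
  refine (e.inv.left.isOpenEmbedding.isInducing.topologicalKrullDim_le).trans ?_
  change topologicalKrullDim (PrimeSpectrum B) ≤ N
  rw [PrimeSpectrum.topologicalKrullDim_eq_ringKrullDim]
  exact h1

/-- Special classes of dimension `a` on all varieties, from those on the finite étale covers of the
affine spaces. -/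
theorem of_covers_all (hT : T.IsValid) (hs : T.IsStrict) [PerfectField k] (p : ℕ) [CharP k p]
    (hp : p ≠ 0) (a : ℤ)
    (h : ∀ (m : ℕ) (f : (MvPolynomial (Fin m) k)[X]), f.Monic →
      IsCoprime f (derivative f) → Irreducible f → T.Algebraic (aff k (AdjoinRoot f)) a)
    (X : Over (Spec (.of k))) (hX : IsVariety X) : T.Algebraic X a := by
  refine algebraic_of_integral hT hs (n := ⊤) (fun E hE1 hE2 hE3 _ => ?_) X hX le_top
  obtain ⟨n, hE4⟩ := exists_dim E hE3
  obtain ⟨r, f, _, hf, hc, hi, j, hj, hne⟩ := exists_cover_open p hp n E hE3 hE4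
  exact ⟨_, j, hj, hne, h r f hf hc hi⟩

/-- The dimension of a cover. -/
theorem dim_cov {m : ℕ} (f : (MvPolynomial (Fin m) k)[X]) (hf : f ≠ 0) :
    topologicalKrullDim (aff k (AdjoinRoot f)).left ≤ m := by
  change topologicalKrullDim (PrimeSpectrum (AdjoinRoot f)) ≤ m
  rw [PrimeSpectrum.topologicalKrullDim_eq_ringKrullDim]
  have h1 : ringKrullDim ((MvPolynomial (Fin m) k)[X] ⧸ Ideal.span {f}) + 1 ≤
      ringKrullDim (MvPolynomial (Fin m) k)[X] :=
    ringKrullDim_quotient_succ_le_of_nonZeroDivisor (mem_nonZeroDivisors_of_ne_zero hf)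
  rw [Polynomial.ringKrullDim_of_isNoetherianRing, MvPolynomial.ringKrullDim_of_isNoetherianRing,
    ringKrullDim_eq_zero_of_field, zero_add, Nat.card_eq_fintype_card, Fintype.card_fin] at h1
  have h3 : ((m : ℕ) : WithBot ℕ∞) + 1 = ((m + 1 : ℕ) : WithBot ℕ∞) := by push_cast; rfl
  rw [h3, ENat.WithBot.add_one_le_natCast_iff, ← h3] at h1
  exact ENat.WithBot.lt_add_one_iff.mp h1

/-- Only the affine space of dimension `n` is needed. -/
theorem of_covers_eq (hT : T.IsValid) [PerfectField k] (p : ℕ) [CharP k p] (hp : p ≠ 0)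
    (n : ℕ) (c : ℤ)
    (h : ∀ (f : (MvPolynomial (Fin n) k)[X]), f.Monic →
      IsCoprime f (derivative f) → Irreducible f → T.Algebraic (aff k (AdjoinRoot f)) (n - c)) :
    ∀ (j m : ℕ), m + j = n → ∀ f : (MvPolynomial (Fin m) k)[X], f.Monic →
        IsCoprime f (derivative f) → Irreducible f →
          T.Algebraic (aff k (AdjoinRoot f)) (m - c) := by
  intro j
  induction j with
  | zero =>
    intro m hm f
    rw [add_zero] at hm
    subst hm
    exact h f
  | succ j ih =>
    intro m hm f hf hc hi
    obtain ⟨f', h1, h2, h3, ⟨e⟩⟩ := Pool.Agent.Helper62.EC.exists_torus' p hp f hf hc hi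
    have h4 := ih (m + 1) (by omega) f' h1 h2 h3
    have := ft_cov f
    have := ft_cov f'
    have : Algebra.FiniteType k (LaurentPolynomial (AdjoinRoot f)) :=
      Algebra.FiniteType.equiv this e
    refine algebraic_of_laurent hT _ (alg_iso hT e ?_)
    have h5 : ((m : ℤ) - c) + 1 = ((m + 1 : ℕ) : ℤ) - c := by push_cast; ring
    rw [h5]
    exact h4

end covers

end Pool.Agent.Helper13.TC
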