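import Pool.Agent.Helper13.TC.Tw

/-!
# Cubic Artin–Schreier covers
-/

set_option autoImplicit false

open CategoryTheory AlgebraicGeometry Polynomial

universe u v

namespace Pool.Agent.Helper13.TC

open Pool.Agent.Y138.UC Pool.Agent.Helper62.EC

/-- A class whose restriction to an open subscheme is special is special, if the restriction is
injective. -/
def ReflectsRes {k : Type u} [Field k] {F : Type v} [Field F] (T : CycleTheory.{u, v} k F) : Prop :=
  ∀ (U X : Sch k) (j : U ⟶ X) (hj : IsOp j), IsVariety X →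
    ∀ n, Inj ((T.H 0).res j hj n) →
      Reflects ((T.H 0).res j hj n) (T.special X n) (T.special U n)

section ring

variable {k : Type} [Field k] {r N : ℕ} (q : Fin (r + 1) → MvPolynomial (Fin N) k) (p : ℕ)

/-- restriction to `y = 0` -/
noncomputable def fz : RA q p →ₐ[k] AS p (0 : DD k r N) :=
  asLift ((IsScalarTower.toAlgHom k (DD k r N) (AS p (0 : DD k r N))).comp
    ((aeval (0 : DD k r N)).restrictScalars k)) (rt p (0 : DD k r N)) (by
    rw [rt_rel]
    change _ = algebraMap (DD k r N) _ (aeval (0 : DD k r N) (yf (bil q)))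
    rw [yf, map_mul, aeval_X, zero_mul])

lemma fz_rt : fz q p (rt p (yf (bil q))) = rt p (0 : DD k r N) := asLift_rt _ _ _

lemma fz_of (x : (DD k r N)[X]) : fz q p (algebraMap (DD k r N)[X] (RA q p) x) =
    algebraMap (DD k r N) _ (aeval (0 : DD k r N) x) := asLift_of _ _ _ _

lemma fz_y : fz q p (yy p (bil q)) = 0 := by
  rw [yy, fz_of, aeval_X, map_zero]

/-- the other map -/
noncomputable def gz : AS p (0 : DD k r N) →ₐ[k] RA q p ⧸ Ideal.span {yy p (bil q)} :=
  asLift (((Ideal.Quotient.mkₐ k _).comp (IsScalarTower.toAlgHom k (DD k r N) (RA q p))))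
    (Ideal.Quotient.mk _ (rt p (yf (bil q)))) (by
    rw [map_zero, ← map_pow, ← map_sub, yy_rel, Ideal.Quotient.eq_zero_iff_mem]
    exact Ideal.mul_mem_right _ _ (Ideal.mem_span_singleton_self _))

lemma gz_fz (a : RA q p) : gz q p (fz q p a) = Ideal.Quotient.mk _ a := by
  refine as_ind (M := fun a => gz q p (fz q p a) = Ideal.Quotient.mk _ a) ?_ ?_ ?_ ?_ a
  · intro x
    rw [fz_of, gz, asLift_of]
    change Ideal.Quotient.mk _ (algebraMap (DD k r N) (RA q p) (aeval (0 : DD k r N) x)) = _
    rw [← sub_eq_zero, ← map_sub, Ideal.Quotient.eq_zero_iff_mem]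
    have h1 : algebraMap (DD k r N) (RA q p) (aeval (0 : DD k r N) x) =
      algebraMap (DD k r N)[X] (RA q p) (C (aeval (0 : DD k r N) x)) := rfl
    rw [h1, ← map_sub]
    have h2 : X ∣ C (aeval (0 : DD k r N) x) - x := by
      rw [X_dvd_iff, coeff_sub, coeff_C_zero, coeff_zero_eq_aeval_zero, sub_self]
    obtain ⟨c, hc⟩ := h2
    rw [hc, map_mul]
    exact Ideal.mul_mem_right _ _ (Ideal.mem_span_singleton_self _)
  · rw [fz_rt, gz, asLift_rt]
  · intro x y hx hy
    rw [map_add, map_add, map_add, hx, hy]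
  · intro x y hx hy
    rw [map_mul, map_mul, map_mul, hx, hy]

lemma fz_ker : RingHom.ker (fz q p : RA q p →+* AS p (0 : DD k r N)) =
    Ideal.span {yy p (bil q)} := by
  apply le_antisymm
  · intro a ha
    have h1 : fz q p a = 0 := ha
    have h2 := gz_fz q p a
    rw [h1, map_zero] at h2
    exact Ideal.Quotient.eq_zero_iff_mem.1 h2.symm
  · rw [Ideal.span_le]
    rintro _ rfl
    exact fz_y q p

lemma fz_surjective : Function.Surjective (fz q p) := by
  intro b
  refine as_ind (M := fun b => ∃ a, fz q p a = b) ?_ ?_ ?_ ?_ b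
  · intro d
    refine ⟨algebraMap (DD k r N)[X] (RA q p) (C d), ?_⟩
    rw [fz_of, aeval_C]
    rfl
  · exact ⟨_, fz_rt q p⟩
  · rintro _ _ ⟨a, rfl⟩ ⟨b, rfl⟩
    exact ⟨a + b, map_add _ _ _⟩
  · rintro _ _ ⟨a, rfl⟩ ⟨b, rfl⟩
    exact ⟨a * b, map_mul _ _ _⟩

/-- the torus part of the cover and its closed complement -/
theorem compl_y : IsComplement (k := k)
    (affMap (fz q p : RA q p →+* AS p (0 : DD k r N)) (fz q p).comp_algebraMap)
    (affMap (th q p : RA q p →+* RM q p) (th q p).comp_algebraMap) := by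
  have h := isOpenImmersion_of_inverse (th q p : RA q p →+* RM q p) (yy p (bil q)) (th_unit q p)
    (ps q p) (RingHom.ext fun a => ps_th q p a) (RingHom.ext fun b => th_ps q p b)
  exact isComplement_aff _ _ _ _ (fz_surjective q p) (yy p (bil q)) (fz_ker q p) h.1 h.2

end ring

section main

variable {k : Type} [Field k] {F : Type v} [Field F] {T : CycleTheory.{0, v} k F}

/-- the homology of a scheme from a closed subscheme and its complement -/
theorem vanish_of_compl (hT : T.IsValid) {Z X U : Sch k} {i : Z ⟶ X} {j : U ⟶ X}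
    (hX : IsVariety X) (h : IsComplement i j) {m n : ℤ} (h1 : Subsingleton ((T.H m).M Z n))
    (h2 : Subsingleton ((T.H m).M U n)) : Subsingleton ((T.H m).M X n) := by
  have h3 := (hT.homology.exact hX h m n).1
  have h4 : ∀ x : (T.H m).M X n, x = 0 := by
    intro x
    obtain ⟨z, rfl⟩ := (h3 x).1 (Subsingleton.elim _ _)
    rw [Subsingleton.elim z 0, map_zero]
  exact ⟨fun x y => by rw [h4 x, h4 y]⟩

/-- several copies of a scheme without homology -/
theorem spl_vanish (hT : T.IsValid) (G : Type) [CommRing G] [Algebra k G] [Algebra.FiniteType k G]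
    (s : Finset k) {m n : ℤ} (h : Subsingleton ((T.H m).M (aff k G) n)) :
    Subsingleton ((T.H m).M (aff k (Spl G s)) n) := by
  classical
  have hft : ∀ s : Finset k, Algebra.FiniteType k (Spl G s) := fun s => ft_spl s
  induction s using Finset.induction_on with
  | empty =>
    have hsub : Subsingleton (Spl G (∅ : Finset k)) := by
      change Subsingleton (G[X] ⧸ Ideal.span {∏ a ∈ (∅ : Finset k), (X - C (algebraMap k G a))})
      rw [Finset.prod_empty, Ideal.span_singleton_one]
      exact Ideal.Quotient.subsingleton_iff.mpr rfl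
    have hemp : IsEmpty (aff k (Spl G (∅ : Finset k))).left := by
      change IsEmpty (PrimeSpectrum _)
      exact PrimeSpectrum.isEmpty_iff_subsingleton.2 hsub
    exact empty_subsingleton hT _ m n
  | insert a s ha ih =>
    obtain ⟨e⟩ := spl_insert G s a ha
    have f1 := hft s
    have f2 := hft (insert a s)
    have f3 : Algebra.FiniteType k (G × Spl G s) := ft_of_equiv e
    refine sub_iso hT (affIso e) (isVariety_aff _) ?_
    exact vanish_of_compl hT (isVariety_aff _) (compl_prod (k := k) G (Spl G s)) ih h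

variable (p : ℕ) [Fact p.Prime] [CharP k p]

/-- the cover `t ^ p - t = 0` -/
theorem as_zero_vanish (hT : T.IsValid) (G : Type) [CommRing G] [Algebra k G]
    [Algebra.FiniteType k G] {m n : ℤ} (h : Subsingleton ((T.H m).M (aff k G) n)) :
    Subsingleton ((T.H m).M (aff k (AS p (0 : G))) n) := by
  classical
  have hp : 2 ≤ p := (Fact.out : p.Prime).two_le
  have h0 : (0 : k) ∉ unts k p := by
    rw [unts, Finset.mem_image]
    rintro ⟨a, ha, h1⟩
    rw [map_eq_zero] at h1
    exact (Finset.mem_erase.1 ha).1 h1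
  have hpoly : asp p (0 : G) = ∏ a ∈ insert 0 (unts k p),
      (Polynomial.X - Polynomial.C (algebraMap k G a)) := by
    have h1 := congrArg (Polynomial.map (algebraMap k G)) (prod_unts k p)
    rw [Polynomial.map_sub, Polynomial.map_pow, Polynomial.map_one, Polynomial.map_X,
      Polynomial.map_prod] at h1
    have h2 : ∏ a ∈ unts k p, (Polynomial.X - Polynomial.C (algebraMap k G a)) =
        (Polynomial.X ^ (p - 1) - 1 : Polynomial G) := by
      rw [h1]
      refine Finset.prod_congr rfl fun a _ => ?_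
      rw [Polynomial.map_sub, Polynomial.map_X, Polynomial.map_C]
    rw [Finset.prod_insert h0, h2, map_zero, Polynomial.C_0, sub_zero, asp, Polynomial.C_0, sub_zero,
      pow_split p hp]
  obtain ⟨e⟩ := adjoin_congr (k := k) hpoly
  have := ft_spl (k := k) (G := G) (insert 0 (unts k p))
  exact sub_iso hT (affIso e) (isVariety_aff _) (spl_vanish hT G _ h)

/-- the classes on an affine space -/
theorem dd_vanish (hT : T.IsValid) (r N : ℕ) {n : ℤ} (h : n ≠ N + (r + 1)) :
    Subsingleton ((T.H 0).M (aff k (DD k r N)) n) := by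
  let e1 : DD k r N ≃ₐ[k] MvPolynomial (Fin (r + 1 + N)) k :=
    MvPolynomial.renameEquiv k finSumFinEquiv
  exact sub_iso hT (affIso e1) (isVariety_aff _) (hT.affine_space (r + 1 + N) 0 n (by
    push_cast; omega))

variable {r N : ℕ} (q : Fin (r + 1) → MvPolynomial (Fin N) k)

lemma ft_gm (A : Type) [CommRing A] [Algebra k A] [Algebra.FiniteType k A] :
    Algebra.FiniteType k (Gm A) := by
  have h : Algebra.FiniteType (MvPolynomial (Fin 1) A) (Gm A) :=
    RingHom.finiteType_algebraMap.1 (RingHom.finiteType_holdsForLocalizationAway (Gm A)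
      (MvPolynomial.X 0 : MvPolynomial (Fin 1) A))
  exact Algebra.FiniteType.trans (S := MvPolynomial (Fin 1) A) inferInstance h

/-- From `t ^ p - t = g` to its product with the torus, for weighted theories. -/
theorem gm_of_algebraic (hT : T.IsValid) (hw : T.IsWeighted) (hr : ReflectsRes T) (A : Type)
    [CommRing A] [Algebra k A] [Algebra.FiniteType k A] {n : ℤ} (h : T.Algebraic (aff k A) n) :
    T.Algebraic (aff k (Gm A)) (n + 1) := by
  have hb := isAffineBundle_triv (k := k) A 1
  have vA : IsVariety (aff k A) := isVariety_aff A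
  have vE : IsVariety (aff k (MvPolynomial (Fin 1) A)) := isVariety_aff _
  have hinj : Function.Injective ((T.H 0).res (gmι A) (gm_open A) (n + (1 : ℕ))) :=
    hT.homology.res_injective hb (gm_open A) (gm_section A) vA 0 rfl
  have key : T.Algebraic (aff k (Gm A)) (n + (1 : ℕ)) := by
    intro x hx
    obtain ⟨y, rfl⟩ := hw.res (gmι A) (gm_open A) vE _ x hx
    have hy := hr _ _ (gmι A) (gm_open A) vE _ hinj y hx
    obtain ⟨w, rfl⟩ := (hT.homology.pull hb vA 0 n).2 y
    obtain ⟨η, rfl⟩ := h (hw.pull _ _ hb vA _ _ hy)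
    refine ⟨T.C.res (gmι A) (gm_open A) _ (T.C.pull _ 1 hb n η), ?_⟩
    rw [(hT.res _ _ _).1, (hT.pull _ 1 hb n).1]
  rw [Nat.cast_one] at key
  exact key

/-- From the product of `t ^ p - t = g` with the torus to `t ^ p - t = y g`. -/
theorem ya_of_gm (hT : T.IsValid) {n : ℤ} (hn : n ≠ N + (r + 1))
    (h : T.Algebraic (aff k (RM q p)) n) : T.Algebraic (aff k (RA q p)) n := by
  have hc := compl_y q p
  have vA : IsVariety (aff k (RA q p)) := isVariety_aff _
  have h0 : Subsingleton ((T.H 0).M (aff k (AS p (0 : DD k r N))) n) :=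
    as_zero_vanish p hT _ (dd_vanish hT r N hn)
  intro x hx
  obtain ⟨ξ, hξ⟩ := h ((hT.res _ hc.2.1 n).2 x hx)
  obtain ⟨ζ, rfl⟩ := (hT.chow.exact vA hc n).2 ξ
  rw [(hT.res _ hc.2.1 n).1] at hξ
  refine ⟨ζ, ?_⟩
  have h2 : (T.H 0).res _ hc.2.1 n (T.cl _ n ζ - x) = 0 := by rw [map_sub, hξ, sub_self]
  obtain ⟨z, hz⟩ := ((hT.homology.exact vA hc 0 n).1 _).1 h2
  rw [Subsingleton.elim z 0, map_zero] at hz
  exact sub_eq_zero.1 hz.symm

/-- From `t ^ p - t = y g` to the product of `t ^ p - t = g` with the torus, for weighted theories. -/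
theorem gm_of_ya (hT : T.IsValid) (hw : T.IsWeighted) (hr : ReflectsRes T) {n : ℤ}
    (hn : n ≠ N + (r + 1)) (h : T.Algebraic (aff k (RA q p)) n) :
    T.Algebraic (aff k (RM q p)) n := by
  have hc := compl_y q p
  have vA : IsVariety (aff k (RA q p)) := isVariety_aff _
  have h0 : Subsingleton ((T.H 0).M (aff k (AS p (0 : DD k r N))) n) :=
    as_zero_vanish p hT _ (dd_vanish hT r N hn)
  have hinj : Function.Injective ((T.H 0).res _ hc.2.1 n) := by
    rw [injective_iff_map_eq_zero]
    intro x hx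
    obtain ⟨z, rfl⟩ := ((hT.homology.exact vA hc 0 n).1 _).1 hx
    rw [Subsingleton.elim z 0, map_zero]
  intro x hx
  obtain ⟨y, rfl⟩ := hw.res _ hc.2.1 vA n x hx
  obtain ⟨η, rfl⟩ := h (hr _ _ _ hc.2.1 vA n hinj y hx)
  exact ⟨T.C.res _ hc.2.1 n η, (hT.res _ hc.2.1 n).1 η⟩

lemma card_dd : (Fintype.card (Fin (r + 1) ⊕ Fin N) : ℤ) = N + (r + 1) := by
  rw [Fintype.card_sum, Fintype.card_fin, Fintype.card_fin]
  push_cast
  ring

/-- The hypersurface `g = 0`. -/
theorem hyp_iso {n : ℤ} (hT : T.IsValid) :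
    T.Algebraic (hyp q) n ↔ T.Algebraic (aff k (DD k r N ⧸ Ideal.span {bil q})) n := by
  have h1 : Ideal.span (Set.range (fun _ : Unit => bil q)) = Ideal.span {bil q} := by
    rw [Set.range_const]
  let e : (DD k r N ⧸ Ideal.span (Set.range (fun _ : Unit => bil q))) ≃ₐ[k]
      (DD k r N ⧸ Ideal.span {bil q}) := Ideal.quotientEquivAlgOfEq k h1
  exact ⟨alg_iso hT e, alg_iso hT e.symm⟩

/-- From the covers `t ^ p - t = g` to the common zeros: no weights are needed, but the algebraicity on
the product with the torus. -/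
theorem zeros_of_gm (hT : T.IsValid) (hcl : ClopenRes T) (a : ℤ) (ha : a ≠ N) (ha' : a + 1 ≠ N)
    (h : T.Algebraic (aff k (RM q p)) (a + (r + 1) + 1)) : T.Algebraic (zeros k q) a := by
  refine hT.zeros_of_hyp q a ha ha' ((hyp_iso q hT).2 ?_)
  refine zero_of_as' p (bil q) hT hcl ?_ (ya_of_gm p q hT ?_ h)
  · rw [card_dd]
    omega
  · omega

/-- **The equivalence for weighted theories.** -/
theorem zeros_iff_as (hT : T.IsValid) (hw : T.IsWeighted) (hcl : ClopenRes T) (hr : ReflectsRes T)
    (a : ℤ) (ha : a ≠ N) (ha' : a + 1 ≠ N) :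
    T.Algebraic (aff k (AS p (bil q))) (a + (r + 1)) ↔ T.Algebraic (zeros k q) a := by
  constructor
  · intro h
    exact zeros_of_gm p q hT hcl a ha ha' (gm_of_algebraic hT hw hr _ h)
  · intro h
    have h1 := (hyp_iso q hT).1 ((hw.hyp_iff_zeros hT q a ha ha').2 h)
    have h2 := as_of_zero' p (bil q) hT hw hcl (by rw [card_dd]; omega) h1
    exact algebraic_of_gm _ hT (gm_of_ya p q hT hw hr (by omega) h2)

end main

end Pool.Agent.Helper13.TC
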