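import Pool.Graph.R_pool_sql_team_seeded_1acbe0a2.Y138.UC.Conv

/-!
# Noetherian induction with integral affine open subschemes
-/

set_option autoImplicit false

open CategoryTheory AlgebraicGeometry

universe u v

namespace Pool.Agent.Helper13.TC

open Pool.Agent.Y138.UC

variable {k : Type u} [Field k] {F : Type v} [Field F] {T : CycleTheory.{u, v} k F}

/-- The zero section of the line. -/
noncomputable def zeroSec (A : Type u) [CommRing A] [Algebra k A] (c : A) :
    aff k A ⟶ aff k (MvPolynomial (Fin 1) A) :=
  affMap (MvPolynomial.eval (fun _ : Fin 1 => c)) (eval_alg A c)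

theorem zeroSec_triv (A : Type u) [CommRing A] [Algebra k A] (c : A) :
    zeroSec (k := k) A c ≫ triv A 1 = 𝟙 (aff k A) := by
  have h := affMap_section (k := k) (MvPolynomial.C : A →+* MvPolynomial (Fin 1) A) rfl
    (RingHom.id (MvPolynomial (Fin 1) A)) rfl (MvPolynomial.eval (fun _ : Fin 1 => c))
    (eval_alg A c) (RingHom.ext fun x => MvPolynomial.eval_C _)
  have h2 : (affMap (RingHom.id (MvPolynomial (Fin 1) A)) rfl :
      aff k (MvPolynomial (Fin 1) A) ⟶ aff k (MvPolynomial (Fin 1) A)) = 𝟙 _ := by
    refine Over.OverMorphism.ext ?_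
    change Spec.map (CommRingCat.ofHom (RingHom.id _)) = 𝟙 _
    exact Spec.map_id _
  rw [h2, Category.id_comp] at h
  exact h

/-- The homology of the empty scheme vanishes. -/
theorem empty_subsingleton (hT : T.IsValid) (Z : Over (Spec (.of k))) [IsEmpty Z.left] (m n : ℤ) :
    Subsingleton ((T.H m).M Z n) := by
  have hH := hT.homology
  set E : Over (Spec (.of k)) := aff k (MvPolynomial (Fin 1) k) with hE
  have vE : IsVariety E := isVariety_aff _
  have oE : IsOpenImmersion (𝟙 E : E ⟶ E).left := by
    change IsOpenImmersion (𝟙 E.left)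
    infer_instance
  let i : Z ⟶ E := Over.homMk (isInitialOfIsEmpty.to E.left) (isInitialOfIsEmpty.hom_ext _ _)
  have c : IsComplement i (𝟙 E) := by
    refine ⟨?_, oE, ?_⟩
    · change IsClosedImmersion i.left
      infer_instance
    · ext x
      constructor
      · rintro ⟨y, _⟩
        exact isEmptyElim y
      · intro h
        exact absurd (Set.mem_range.2 ⟨x, rfl⟩) h
  have hinj : ∀ m, Function.Injective ((T.H m).res (𝟙 E) oE n) := by
    intro m
    refine hH.res_injective (isAffineBundle_triv (k := k) k 1) oE
      (s := zeroSec k (0 : k)) ?_ (isVariety_aff k) m (n' := n - 1) (by push_cast; ring)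
    rw [Category.id_comp]
    exact zeroSec_triv k (0 : k)
  obtain ⟨h1, δ, h2, h3⟩ := hH.exact vE c m n
  have fin := hH.finite vE (m + 1) n
  have hsur : Function.Surjective ((T.H (m + 1)).res (𝟙 E) oE n) :=
    LinearMap.injective_iff_surjective.1 (hinj (m + 1))
  have hδ : ∀ x, δ x = 0 := fun x => (h2 x).2 (hsur x)
  have hpush : Function.Injective ((T.H m).push i c.1 n) := by
    rw [injective_iff_map_eq_zero]
    intro x hx
    obtain ⟨y, rfl⟩ := (h3 x).1 hx
    exact hδ y
  refine ⟨fun x y => hpush ?_⟩
  have hz : ∀ x, (T.H m).push i c.1 n x = 0 := by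
    intro x
    apply hinj m
    rw [map_zero]
    exact (h1 _).2 ⟨x, rfl⟩
  rw [hz, hz]

theorem algebraic_empty (hT : T.IsValid) (Z : Over (Spec (.of k))) [IsEmpty Z.left] (a : ℤ) :
    T.Algebraic Z a := by
  intro x _
  have := empty_subsingleton hT Z 0 a
  exact ⟨0, Subsingleton.elim _ _⟩

/-- The subscheme of a radical ideal sheaf is reduced. -/
theorem isReduced_subscheme {X : Scheme.{u}} (I : X.IdealSheafData)
    (h : ∀ U : X.affineOpens, (I.ideal U).IsRadical) : IsReduced I.subscheme := by
  have h1 : ∀ i, IsReduced (I.subschemeCover.openCover.X i) := by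
    intro U
    change IsReduced (Spec (.of (Γ(X, U.1) ⧸ I.ideal U)))
    have h2 : _root_.IsReduced (Γ(X, U.1) ⧸ I.ideal U) :=
      (Ideal.isRadical_iff_quotient_reduced _).1 (h U)
    have h3 : _root_.IsReduced (CommRingCat.of (Γ(X, U.1) ⧸ I.ideal U)) := h2
    infer_instance
  exact IsReduced.of_openCover _ I.subschemeCover.openCover

/-- A non-empty reduced variety has an integral affine open subscheme. -/
theorem exists_integral_open {Z : Over (Spec (.of k))} (hZ : IsVariety Z) [IsReduced Z.left]
    [Nonempty Z.left] : ∃ W : Z.left.Opens, IsAffineOpen W ∧ IsIntegral (opn Z W).left := by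
  have hn := noetherianSpace hZ
  obtain ⟨z⟩ := (inferInstance : Nonempty Z.left)
  obtain ⟨o, ho, ⟨y, hy⟩, hle⟩ :=
    TopologicalSpace.NoetherianSpace.exists_isOpen_nonempty_subset_irreducibleComponent
    (irreducibleComponent z) (irreducibleComponent_mem_irreducibleComponents z)
  obtain ⟨W, hW, hyW, hWo⟩ := exists_isAffineOpen_mem_and_subset (U := (⟨o, ho⟩ : Z.left.Opens))
    (x := y) hy
  refine ⟨W, hW, ?_⟩
  have hirr : IsPreirreducible (W : Set Z.left) := by
    have h1 : IsPreirreducible (irreducibleComponent z) := isIrreducible_irreducibleComponent.2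
    exact h1.open_subset W.2 (fun x hx => hle (hWo hx))
  have : IrreducibleSpace (opn Z W).left := by
    change IrreducibleSpace (W : Set Z.left)
    exact Subtype.irreducibleSpace ⟨⟨y, hyW⟩, hirr⟩
  have : IsReduced (opn Z W).left := by
    change IsReduced (W : Scheme)
    infer_instance
  exact isIntegral_of_irreducibleSpace_of_isReduced _

/-- **The Noetherian induction.** -/
theorem algebraic_of_integral (hT : T.IsValid) (hs : T.IsStrict) {a : ℤ} {n : WithBot ℕ∞}
    (h : ∀ (E : Over (Spec (.of k))), IsAffine E.left → IsIntegral E.left → IsVariety E →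
      topologicalKrullDim E.left ≤ n → ∃ (V : Over (Spec (.of k))) (j : V ⟶ E),
        IsOpenImmersion j.left ∧ Nonempty V.left ∧ T.Algebraic V a)
    (X : Over (Spec (.of k))) (hX : IsVariety X) (hn : topologicalKrullDim X.left ≤ n) :
    T.Algebraic X a := by
  have hnoe := noetherianSpace hX
  have key : ∀ (C : TopologicalSpace.Closeds X.left) (Z : Over (Spec (.of k))) (i : Z ⟶ X),
      IsClosedImmersion i.left → Set.range i.left = (C : Set X.left) → T.Algebraic Z a := by
    intro C
    induction C using WellFoundedLT.induction with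
    | ind C ih =>
      intro Z₀ i₀ hi₀ hr₀
      have hZ₀ : IsVariety Z₀ := isVariety_closed hX i₀ hi₀
      rcases isEmpty_or_nonempty Z₀.left with hemp | hne
      · exact algebraic_empty hT Z₀ a
      -- the reduced subscheme
      set I₀ := Scheme.IdealSheafData.vanishingIdeal (⊤ : TopologicalSpace.Closeds Z₀.left) with hI₀
      set Z : Over (Spec (.of k)) := Over.mk (I₀.subschemeι ≫ Z₀.hom) with hZdef
      set i₁ : Z ⟶ Z₀ := Over.homMk I₀.subschemeι with hi₁
      have hi₁c : IsClosedImmersion i₁.left := by
        change IsClosedImmersion I₀.subschemeι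
        infer_instance
      have hr₁ : Set.range i₁.left = Set.univ := by
        change Set.range I₀.subschemeι = _
        rw [Scheme.IdealSheafData.range_subschemeι, hI₀]
        simp
      have hc₁ : IsComplement i₁ (opnι Z₀ ⊥) := by
        refine ⟨hi₁c, ?_, ?_⟩
        · change IsOpenImmersion (Scheme.Opens.ι _)
          infer_instance
        · rw [hr₁]
          change _ = (Set.range (Scheme.Opens.ι _))ᶜ
          simp
      have hemp : IsEmpty (opn Z₀ ⊥).left := by
        change IsEmpty ((⊥ : Z₀.left.Opens) : Set Z₀.left)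
        simp
      refine hs.algebraic_of_complement hT hZ₀ hc₁ ?_ (algebraic_empty hT _ a)
      have hZ : IsVariety Z := isVariety_closed hZ₀ i₁ hi₁c
      have hred : IsReduced Z.left := by
        change IsReduced I₀.subscheme
        refine isReduced_subscheme _ fun U => ?_
        rw [hI₀, Scheme.IdealSheafData.vanishingIdeal_top]
        exact Ideal.radical_isRadical _
      have hneZ : Nonempty Z.left := by
        obtain ⟨z⟩ := hne
        have : z ∈ Set.range i₁.left := by rw [hr₁]; trivial
        obtain ⟨y, _⟩ := this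
        exact ⟨y⟩
      obtain ⟨W, hW, hWint⟩ := exists_integral_open hZ
      have hdim : topologicalKrullDim (opn Z W).left ≤ n := by
        refine le_trans ?_ hn
        have h1 : IsOpenImmersion (opnι Z W).left := by
          change IsOpenImmersion W.ι
          infer_instance
        have e1 := (opnι Z W).left.isOpenEmbedding.isInducing.topologicalKrullDim_le
        have e2 := i₁.left.isClosedEmbedding.isInducing.topologicalKrullDim_le
        have e3 := i₀.left.isClosedEmbedding.isInducing.topologicalKrullDim_le
        exact e1.trans (e2.trans e3)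
      obtain ⟨V, j, hj, ⟨v⟩, hV⟩ := h (opn Z W) hW hWint (isVariety_opn hZ W) hdim
      -- the open subscheme
      let J : V ⟶ Z := j ≫ opnι Z W
      have hJ : IsOpenImmersion J.left := by
        have h1 : IsOpenImmersion (opnι Z W).left := by
          change IsOpenImmersion W.ι
          infer_instance
        change IsOpenImmersion (j.left ≫ (opnι Z W).left)
        infer_instance
      set C' : TopologicalSpace.Closeds Z.left :=
        ⟨(Set.range J.left)ᶜ, J.left.isOpenEmbedding.isOpen_range.isClosed_compl⟩ with hC'
      set I := Scheme.IdealSheafData.vanishingIdeal C' with hI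
      set Z' : Over (Spec (.of k)) := Over.mk (I.subschemeι ≫ Z.hom) with hZ'
      set i' : Z' ⟶ Z := Over.homMk I.subschemeι with hi'
      have hi'c : IsClosedImmersion i'.left := by
        change IsClosedImmersion I.subschemeι
        infer_instance
      have hr' : Set.range i'.left = (Set.range J.left)ᶜ := by
        change Set.range I.subschemeι = _
        rw [Scheme.IdealSheafData.range_subschemeι, hI]
        simp [hC']
      have hc : IsComplement i' J := ⟨hi'c, hJ, hr'⟩
      refine hs.algebraic_of_complement hT hZ hc ?_ hV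
      have hcc : IsClosedImmersion (i' ≫ i₁ ≫ i₀).left := by
        change IsClosedImmersion (i'.left ≫ i₁.left ≫ i₀.left)
        infer_instance
      have hinj : Function.Injective (i₁ ≫ i₀).left := by
        have h1 : IsClosedImmersion (i₁ ≫ i₀).left := by
          change IsClosedImmersion (i₁.left ≫ i₀.left)
          infer_instance
        exact (i₁ ≫ i₀).left.isClosedEmbedding.injective
      refine ih ⟨Set.range (i' ≫ i₁ ≫ i₀).left,
        (i' ≫ i₁ ≫ i₀).left.isClosedEmbedding.isClosed_range⟩ ?_ Z' (i' ≫ i₁ ≫ i₀) hcc rfl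
      refine lt_of_le_of_ne ?_ ?_
      · rintro _ ⟨y, rfl⟩
        change (i' ≫ i₁ ≫ i₀).left y ∈ (C : Set X.left)
        rw [← hr₀]
        exact ⟨(i' ≫ i₁).left y, rfl⟩
      · intro heq
        have h1 : (i₁ ≫ i₀).left (J.left v) ∈ (C : Set X.left) := by
          rw [← hr₀]; exact ⟨i₁.left (J.left v), rfl⟩
        rw [← heq] at h1
        obtain ⟨y, hy⟩ := h1
        have h2 : i'.left y = J.left v := hinj hy
        have h3 : J.left v ∈ (Set.range J.left)ᶜ := by rw [← hr', ← h2]; exact ⟨y, rfl⟩
        exact h3 ⟨v, rfl⟩
  have hid : IsClosedImmersion (𝟙 X : X ⟶ X).left := by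
    change IsClosedImmersion (𝟙 X.left)
    infer_instance
  refine key ⊤ X (𝟙 X) hid ?_
  ext x
  exact ⟨fun _ => trivial, fun _ => ⟨x, rfl⟩⟩

end Pool.Agent.Helper13.TC
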