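import Pool.Agent.Helper13.TC.ASc

/-!
# The Artin–Schreier covers `t ^ p - t = y g` and `t ^ p - t = g`, for a form `g` which is linear in a
block of variables
-/

set_option autoImplicit false

open CategoryTheory AlgebraicGeometry Polynomial

universe v

namespace Pool.Agent.Helper13.TC

open Pool.Agent.Y138.UC Pool.Agent.Helper62.EC

section ring

variable {k : Type} [Field k] {r N : ℕ} (q : Fin (r + 1) → MvPolynomial (Fin N) k) (p : ℕ)

/-- the polynomial ring in both blocks of variables -/
abbrev DD (k : Type) [Field k] (r N : ℕ) : Type := MvPolynomial (Fin (r + 1) ⊕ Fin N) k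

/-- the coordinate ring of `t ^ p - t = g` -/
abbrev RB : Type := AS p (bil q)

/-- the coordinate ring of `t ^ p - t = y g` -/
abbrev RA : Type := AS p (yf (bil q))

/-- the coordinate ring of `t ^ p - t = g` times the torus -/
abbrev RM : Type := Gm (RB q p)

/-- the localization of the coordinate ring of `t ^ p - t = y g` at `y` -/
abbrev RL : Type := Localization.Away (yy p (bil q))

/-- the twisted substitution -/
noncomputable def tw {S : Type} [CommRing S] [Algebra k S] (i : DD k r N →ₐ[k] S) (c : S) :
    DD k r N →ₐ[k] S :=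
  MvPolynomial.aeval (Sum.elim (fun l => i (MvPolynomial.X (Sum.inl l)) * c)
    (fun j => i (MvPolynomial.X (Sum.inr j))))

section tw

variable {S : Type} [CommRing S] [Algebra k S] (i : DD k r N →ₐ[k] S) (c : S)

lemma tw_inl (l : Fin (r + 1)) : tw i c (MvPolynomial.X (Sum.inl l)) =
    i (MvPolynomial.X (Sum.inl l)) * c := by
  rw [tw, MvPolynomial.aeval_X]
  rfl

lemma tw_inr (j : Fin N) : tw i c (MvPolynomial.X (Sum.inr j)) =
    i (MvPolynomial.X (Sum.inr j)) := by
  rw [tw, MvPolynomial.aeval_X]
  rfl

lemma tw_rename (h : MvPolynomial (Fin N) k) : tw i c (MvPolynomial.rename Sum.inr h) =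
    i (MvPolynomial.rename Sum.inr h) := by
  have h1 : (tw i c).comp (MvPolynomial.rename Sum.inr) = i.comp (MvPolynomial.rename Sum.inr) := by
    apply MvPolynomial.algHom_ext
    intro j
    rw [AlgHom.comp_apply, AlgHom.comp_apply, MvPolynomial.rename_X, tw_inr]
  exact AlgHom.congr_fun h1 h

lemma tw_bil : tw i c (bil q) = i (bil q) * c := by
  rw [bil, map_sum, map_sum, Finset.sum_mul]
  refine Finset.sum_congr rfl fun l _ => ?_
  rw [map_mul, map_mul, tw_inl, tw_rename]
  ring

end tw

/-- the structure map -/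
noncomputable def iM : DD k r N →ₐ[k] RM q p :=
  (IsScalarTower.toAlgHom k (MvPolynomial (Fin 1) (RB q p)) (RM q p)).comp
    ((IsScalarTower.toAlgHom k (RB q p) (MvPolynomial (Fin 1) (RB q p))).comp
      (IsScalarTower.toAlgHom k (DD k r N) (RB q p)))

/-- the map from the coordinate ring of `t ^ p - t = g` -/
noncomputable def jM : RB q p →ₐ[k] RM q p :=
  (IsScalarTower.toAlgHom k (MvPolynomial (Fin 1) (RB q p)) (RM q p)).comp
    (IsScalarTower.toAlgHom k (RB q p) (MvPolynomial (Fin 1) (RB q p)))

lemma jM_alg (d : DD k r N) : jM q p (algebraMap (DD k r N) (RB q p) d) = iM q p d := rfl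

/-- the coordinate of the torus -/
noncomputable def yM : RM q p := algebraMap (MvPolynomial (Fin 1) (RB q p)) _ (MvPolynomial.X 0)

/-- its inverse -/
noncomputable def yMi : RM q p :=
  IsLocalization.Away.invSelf (MvPolynomial.X 0 : MvPolynomial (Fin 1) (RB q p))

lemma yM_mul : yM q p * yMi q p = 1 := IsLocalization.Away.mul_invSelf _

/-- the map to the product with the torus -/
noncomputable def th : RA q p →ₐ[k] RM q p :=
  asLift (eval₂AlgHom (tw (iM q p) (yMi q p)) (yM q p) fun _ => Commute.all _ _)
    (jM q p (rt p (bil q))) (by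
    have h1 : (eval₂AlgHom (tw (iM q p) (yMi q p)) (yM q p) fun _ => Commute.all _ _)
        (yf (bil q)) = yM q p * tw (iM q p) (yMi q p) (bil q) := by
      rw [yf, map_mul]
      congr 1
      · simp
      · simp
    rw [h1, tw_bil, mul_comm, mul_assoc, mul_comm (yMi q p), yM_mul, mul_one, ← map_pow, ← map_sub,
      rt_rel, jM_alg])

lemma th_rt : th q p (rt p (yf (bil q))) = jM q p (rt p (bil q)) := asLift_rt _ _ _

lemma th_C (d : DD k r N) : th q p (algebraMap (DD k r N) (RA q p) d) =
    tw (iM q p) (yMi q p) d := by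
  have h1 : algebraMap (DD k r N) (RA q p) d = algebraMap (DD k r N)[X] (RA q p) (C d) := rfl
  rw [h1, th, asLift_of]
  simp

lemma th_y : th q p (yy p (bil q)) = yM q p := by
  rw [th, yy, asLift_of]
  simp

lemma th_unit : IsUnit (th q p (yy p (bil q))) := by
  rw [th_y]
  exact IsUnit.of_mul_eq_one _ (yM_mul q p)

/-- the structure map -/
noncomputable def jL : RA q p →ₐ[k] RL q p := IsScalarTower.toAlgHom k (RA q p) (RL q p)

/-- the structure map -/
noncomputable def iL : DD k r N →ₐ[k] RL q p :=
  (jL q p).comp (IsScalarTower.toAlgHom k (DD k r N) (RA q p))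

/-- the coordinate `y` -/
noncomputable def yL : RL q p := jL q p (yy p (bil q))

/-- its inverse -/
noncomputable def yLi : RL q p := IsLocalization.Away.invSelf (yy p (bil q))

lemma yL_mul : yL q p * yLi q p = 1 := IsLocalization.Away.mul_invSelf _

/-- the map back -/
noncomputable def psB : RB q p →ₐ[k] RL q p :=
  asLift (tw (iL q p) (yL q p)) (jL q p (rt p (yf (bil q)))) (by
    rw [tw_bil, ← map_pow, ← map_sub, yy_rel, map_mul, mul_comm]
    rfl)

lemma psB_rt : psB q p (rt p (bil q)) = jL q p (rt p (yf (bil q))) := asLift_rt _ _ _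

lemma psB_of (d : DD k r N) : psB q p (algebraMap (DD k r N) (RB q p) d) =
    tw (iL q p) (yL q p) d := asLift_of _ _ _ _

/-- the map back -/
noncomputable def ps0 : MvPolynomial (Fin 1) (RB q p) →+* RL q p :=
  MvPolynomial.eval₂Hom (psB q p : RB q p →+* RL q p) fun _ => yL q p

lemma ps0_unit : IsUnit (ps0 q p (MvPolynomial.X 0)) := by
  rw [ps0, MvPolynomial.eval₂Hom_X']
  exact IsUnit.of_mul_eq_one _ (yL_mul q p)

/-- the map back -/
noncomputable def ps : RM q p →+* RL q p :=
  IsLocalization.Away.lift (MvPolynomial.X 0 : MvPolynomial (Fin 1) (RB q p)) (ps0_unit q p)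

lemma ps_alg (x : MvPolynomial (Fin 1) (RB q p)) :
    ps q p (algebraMap (MvPolynomial (Fin 1) (RB q p)) (RM q p) x) = ps0 q p x :=
  IsLocalization.Away.lift_eq _ _ _

lemma ps_jM (b : RB q p) : ps q p (jM q p b) = psB q p b := by
  have h1 : jM q p b = algebraMap (MvPolynomial (Fin 1) (RB q p)) (RM q p) (MvPolynomial.C b) := rfl
  rw [h1, ps_alg, ps0, MvPolynomial.eval₂Hom_C]
  rfl

lemma ps_yM : ps q p (yM q p) = yL q p := by
  rw [yM, ps_alg, ps0, MvPolynomial.eval₂Hom_X']

lemma ps_yMi : ps q p (yMi q p) = yLi q p := by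
  have h1 : yL q p * ps q p (yMi q p) = yL q p * yLi q p := by
    rw [← ps_yM, ← map_mul, yM_mul, map_one, ps_yM, yL_mul]
  have hu : IsUnit (yL q p) := IsUnit.of_mul_eq_one _ (yL_mul q p)
  exact hu.mul_left_cancel h1

lemma ps_iM (d : DD k r N) : ps q p (iM q p d) = tw (iL q p) (yL q p) d := by
  rw [← jM_alg, ps_jM, psB_of]

/-- the composition is the localization map -/
lemma ps_th (a : RA q p) : ps q p (th q p a) = algebraMap (RA q p) (RL q p) a := by
  have key : ∀ d : DD k r N, ps q p (th q p (algebraMap (DD k r N) (RA q p) d)) = iL q p d := by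
    intro d
    rw [th_C]
    induction d using MvPolynomial.induction_on with
    | C c =>
      have h1 : (MvPolynomial.C c : DD k r N) = algebraMap k (DD k r N) c := rfl
      rw [h1, AlgHom.commutes, AlgHom.commutes]
      have h2 : algebraMap k (RM q p) c = iM q p (algebraMap k (DD k r N) c) :=
        (AlgHom.commutes _ _).symm
      rw [h2, ps_iM, AlgHom.commutes]
    | add d e hd he => rw [map_add, map_add, map_add, hd, he]
    | mul_X d i hd =>
      rw [map_mul, map_mul, map_mul, hd]
      congr 1
      rcases i with l | j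
      · rw [tw_inl, map_mul, ps_iM, tw_inl, ps_yMi, mul_assoc, yL_mul, mul_one]
      · rw [tw_inr, ps_iM, tw_inr]
  have key2 : ∀ x : (DD k r N)[X], ps q p (th q p (algebraMap (DD k r N)[X] (RA q p) x)) =
      algebraMap (RA q p) (RL q p) (algebraMap (DD k r N)[X] (RA q p) x) := by
    intro x
    induction x using Polynomial.induction_on' with
    | add a b ha hb => rw [map_add, map_add, map_add, map_add, ha, hb]
    | monomial n d =>
      rw [← C_mul_X_pow_eq_monomial, map_mul, map_mul, map_mul, map_mul]
      congr 1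
      · exact key d
      · rw [map_pow, map_pow, map_pow, map_pow]
        congr 1
        change ps q p (th q p (yy p (bil q))) = yL q p
        rw [th_y, ps_yM]
  refine as_ind (M := fun a => ps q p (th q p a) = algebraMap (RA q p) (RL q p) a)
    key2 ?_ ?_ ?_ a
  · change ps q p (th q p (rt p (yf (bil q)))) = _
    rw [th_rt, ps_jM, psB_rt]
    rfl
  · intro x y hx hy
    rw [map_add, map_add, map_add, hx, hy]
  · intro x y hx hy
    rw [map_mul, map_mul, map_mul, hx, hy]

/-- the other composition -/
lemma th_ps (b : RM q p) : IsLocalization.Away.lift (yy p (bil q)) (g := (th q p : RA q p →+* RM q p))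
    (th_unit q p) (ps q p b) = b := by
  set L := IsLocalization.Away.lift (S := RL q p) (yy p (bil q)) (g := (th q p : RA q p →+* RM q p))
    (th_unit q p) with hL
  have hLj : ∀ a, L (jL q p a) = th q p a := fun a => IsLocalization.Away.lift_eq _ _ _
  have hLy : L (yL q p) = yM q p := by rw [yL, hLj, th_y]
  have hLi : ∀ d, L (iL q p d) = tw (iM q p) (yMi q p) d := by
    intro d
    change L (jL q p (algebraMap (DD k r N) (RA q p) d)) = _
    rw [hLj, th_C]
  have key : ∀ d : DD k r N, L (tw (iL q p) (yL q p) d) = iM q p d := by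
    intro d
    induction d using MvPolynomial.induction_on with
    | C c =>
      have h1 : (MvPolynomial.C c : DD k r N) = algebraMap k (DD k r N) c := rfl
      rw [h1, AlgHom.commutes, AlgHom.commutes]
      have h2 : algebraMap k (RL q p) c = iL q p (algebraMap k (DD k r N) c) :=
        (AlgHom.commutes _ _).symm
      rw [h2, hLi, AlgHom.commutes]
    | add d e hd he => rw [map_add, map_add, map_add, hd, he]
    | mul_X d i hd =>
      rw [map_mul, map_mul, map_mul, hd]
      congr 1
      rcases i with l | j
      · rw [tw_inl, map_mul, hLi, hLy, tw_inl, mul_assoc, mul_comm (yMi q p), yM_mul, mul_one]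
      · rw [tw_inr, hLi, tw_inr]
  have keyB : ∀ b : RB q p, L (psB q p b) = jM q p b := by
    refine as_ind (M := fun b => L (psB q p b) = jM q p b) ?_ ?_ ?_ ?_
    · intro d
      rw [psB_of, key, jM_alg]
    · rw [psB_rt, hLj, th_rt]
    · intro x y hx hy
      rw [map_add, map_add, map_add, hx, hy]
    · intro x y hx hy
      rw [map_mul, map_mul, map_mul, hx, hy]
  have h3 : ((L : RL q p →+* RM q p).comp (ps q p)) = RingHom.id (RM q p) := by
    refine IsLocalization.ringHom_ext (Submonoid.powers (MvPolynomial.X 0 : MvPolynomial (Fin 1) (RB q p))) ?_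
    refine MvPolynomial.ringHom_ext ?_ ?_
    · intro b
      exact (congrArg L (ps_jM q p b)).trans (keyB b)
    · intro j
      have hj : j = 0 := Subsingleton.elim _ _
      subst hj
      exact (congrArg L (ps_yM q p)).trans hLy
  exact RingHom.congr_fun h3 b

end ring

end Pool.Agent.Helper13.TC
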